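import Pool.Agent.Y245.SC.Stm

/-! SC-BOOT: growth of exponent less than one improves to boundedness. -/

set_option autoImplicit false

open Complex MeasureTheory Metric Set Filter Topology ComplexConjugate

namespace Pool.Agent.Y154.SC

open Pool.Agent.Y245.SC

/-- growth with the exponent `α` -/
def Gr (φ : ℂ → ℂ) (ℓ α C : ℝ) : Prop :=
  ∀ ω : ℂ, -ℓ < ω.re → ω.re < 0 → ‖Fc φ ω‖ ≤ C * (ℓ + ω.re) ^ (-α)

/-- the standing assumptions -/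
structure Da (φ G : ℂ → ℂ) (a ℓ : ℝ) : Prop where
  kap : S_KAP
  a0 : 0 < a
  l0 : 0 < ℓ
  hφ : DifferentiableOn ℂ φ (ball 0 (Real.exp ℓ))
  hG : DifferentiableOn ℂ G (ball 0 1)
  hV : Volt a ℓ φ G

theorem Fc_per (φ : ℂ → ℂ) (ω : ℂ) (n : ℤ) : Fc φ (ω + n * (2 * Real.pi * I)) = Fc φ ω := by
  unfold Fc
  have h : -(conj (ω + n * (2 * Real.pi * I))) = -(conj ω) + n * (2 * Real.pi * I) := by
    simp only [map_add, map_mul, conj_I, conj_ofReal, map_ofNat, map_intCast]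
    ring
  rw [h, (Complex.exp_periodic.int_mul n) (-(conj ω))]

theorem near {φ : ℂ → ℂ} {ℓ : ℝ} (hℓ : 0 < ℓ) (hφ : DifferentiableOn ℂ φ (ball 0 (Real.exp ℓ))) :
    ∃ B, 0 ≤ B ∧ ∀ ω : ℂ, -(ℓ / 4) ≤ ω.re → ω.re ≤ 0 → ‖Fc φ ω‖ ≤ B := by
  have hsub : closedBall (0 : ℂ) (Real.exp (ℓ / 4)) ⊆ ball 0 (Real.exp ℓ) :=
    closedBall_subset_ball (Real.exp_lt_exp.2 (by linarith))
  obtain ⟨B, hB⟩ := (isCompact_closedBall (0 : ℂ) (Real.exp (ℓ / 4))).exists_bound_of_continuousOn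
    (hφ.continuousOn.mono hsub)
  refine ⟨|B|, abs_nonneg _, fun ω h1 h2 => ?_⟩
  unfold Fc
  rw [RCLike.norm_conj]
  refine (hB _ ?_).trans (le_abs_self B)
  rw [mem_closedBall_zero_iff, Complex.norm_exp]
  apply Real.exp_le_exp.2
  rw [neg_re, conj_re]
  linarith

theorem pos_of {ℓ x t : ℝ} (hx : -ℓ < x) (hx0 : x < 0) (ht : t ∈ Icc (0 : ℝ) 1) :
    0 < ℓ + t * x := by
  nlinarith [ht.1, ht.2]

theorem cont_of {ℓ x : ℝ} (β : ℝ) (hx : -ℓ < x) (hx0 : x < 0) :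
    ContinuousOn (fun t : ℝ => (ℓ + t * x) ^ (-β)) (uIcc 0 1) := by
  rw [uIcc_of_le zero_le_one]
  exact ContinuousOn.rpow_const (by fun_prop) (fun t ht => Or.inl (pos_of hx hx0 ht).ne')

theorem int_eq {ℓ x β : ℝ} (hx : -ℓ < x) (hx0 : x < 0) (hβ : β ≠ 1) :
    ∫ t in (0 : ℝ)..1, (ℓ + t * x) ^ (-β) =
      (ℓ + x) ^ (1 - β) / ((1 - β) * x) - ℓ ^ (1 - β) / ((1 - β) * x) := by
  have hb : 1 - β ≠ 0 := fun h => hβ (by linarith)
  have hd : ∀ t ∈ uIcc (0 : ℝ) 1, HasDerivAt (fun t => (ℓ + t * x) ^ (1 - β) / ((1 - β) * x))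
      ((ℓ + t * x) ^ (-β)) t := by
    intro t ht
    rw [uIcc_of_le zero_le_one] at ht
    have h1 : HasDerivAt (fun t : ℝ => ℓ + t * x) x t := by
      simpa using ((hasDerivAt_id t).mul_const x).const_add ℓ
    have h2 := (h1.rpow_const (p := 1 - β) (Or.inl (pos_of hx hx0 ht).ne')).div_const ((1 - β) * x)
    refine h2.congr_deriv ?_
    rw [show 1 - β - 1 = -β by ring]
    have hx' : x ≠ 0 := hx0.ne
    field_simp
  rw [intervalIntegral.integral_eq_sub_of_hasDerivAt hd (cont_of β hx hx0).intervalIntegrable]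
  simp

theorem int_lt {ℓ x β : ℝ} (hℓ : 0 < ℓ) (hx : -ℓ < x) (hx0 : x ≤ -(ℓ / 4)) (hβ : β < 1) :
    ∫ t in (0 : ℝ)..1, (ℓ + t * x) ^ (-β) ≤ ℓ ^ (1 - β) / ((1 - β) * (ℓ / 4)) := by
  rw [int_eq hx (by linarith) hβ.ne]
  have h1 : 0 ≤ (ℓ + x) ^ (1 - β) := Real.rpow_nonneg (by linarith) _
  have h2 : 0 < ℓ ^ (1 - β) := Real.rpow_pos_of_pos hℓ _
  have hb : 0 < 1 - β := by linarith
  have hx' : 0 < -x := by linarith
  have e1 : (ℓ + x) ^ (1 - β) / ((1 - β) * x) = -((ℓ + x) ^ (1 - β) / ((1 - β) * (-x))) := by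
    rw [mul_neg, div_neg, neg_neg]
  have e2 : ℓ ^ (1 - β) / ((1 - β) * x) = -(ℓ ^ (1 - β) / ((1 - β) * (-x))) := by
    rw [mul_neg, div_neg, neg_neg]
  rw [e1, e2]
  have h3 : 0 ≤ (ℓ + x) ^ (1 - β) / ((1 - β) * (-x)) := by positivity
  have h4 : ℓ ^ (1 - β) / ((1 - β) * (-x)) ≤ ℓ ^ (1 - β) / ((1 - β) * (ℓ / 4)) := by
    apply div_le_div_of_nonneg_left h2.le (by positivity)
    exact mul_le_mul_of_nonneg_left (by linarith) hb.le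
  linarith

theorem int_gt {ℓ x β : ℝ} (hℓ : 0 < ℓ) (hx : -ℓ < x) (hx0 : x ≤ -(ℓ / 4)) (hβ : 1 < β) :
    ∫ t in (0 : ℝ)..1, (ℓ + t * x) ^ (-β) ≤ ((β - 1) * (ℓ / 4))⁻¹ * (ℓ + x) ^ (1 - β) := by
  rw [int_eq hx (by linarith) hβ.ne']
  have h1 : 0 ≤ (ℓ + x) ^ (1 - β) := Real.rpow_nonneg (by linarith) _
  have h2 : 0 < ℓ ^ (1 - β) := Real.rpow_pos_of_pos hℓ _
  have hb : 0 < β - 1 := by linarith
  have hx' : 0 < -x := by linarith
  have e0 : (1 - β) * x = (β - 1) * (-x) := by ring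
  rw [e0]
  have h3 : 0 ≤ ℓ ^ (1 - β) / ((β - 1) * (-x)) := by positivity
  have h4 : (ℓ + x) ^ (1 - β) / ((β - 1) * (-x)) ≤ (ℓ + x) ^ (1 - β) / ((β - 1) * (ℓ / 4)) := by
    apply div_le_div_of_nonneg_left h1 (by positivity)
    exact mul_le_mul_of_nonneg_left (by linarith) hb.le
  rw [inv_mul_eq_div]
  linarith

theorem core {φ G : ℂ → ℂ} {a ℓ α C : ℝ} (D : Da φ G a ℓ) (hα : α < 1) (hC : 0 ≤ C)
    (hg : Gr φ ℓ α C) :
    ∃ K₁ K₂ : ℝ, 0 ≤ K₁ ∧ 0 ≤ K₂ ∧ ∀ ω0 : ℂ, -ℓ < ω0.re → ω0.re ≤ -(ℓ / 4) →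
      |ω0.im| ≤ Real.pi →
      ‖Fc φ ω0‖ ≤ K₁ + K₂ * ∫ t in (0 : ℝ)..1, (ℓ + t * ω0.re) ^ (-(2 * α)) := by
  obtain ⟨hK, ha, hℓ, hφ, hG, hV⟩ := D
  have hsub : closedBall (0 : ℂ) (Real.exp (-(ℓ / 4))) ⊆ ball 0 1 :=
    closedBall_subset_ball (by
      have := Real.exp_lt_exp.2 (show -(ℓ / 4) < 0 by linarith)
      rwa [Real.exp_zero] at this)
  obtain ⟨K₁, hK₁⟩ := (isCompact_closedBall (0 : ℂ)
    (Real.exp (-(ℓ / 4)))).exists_bound_of_continuousOn (hG.continuousOn.mono hsub)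
  have hsub1 : closedBall (0 : ℂ) 1 ⊆ ball 0 (Real.exp ℓ) :=
    closedBall_subset_ball (Real.one_lt_exp_iff.2 hℓ)
  have hd : DifferentiableOn ℂ (deriv φ) (ball 0 (Real.exp ℓ)) := hφ.deriv isOpen_ball
  obtain ⟨B, hB⟩ := (isCompact_closedBall (0 : ℂ) 1).exists_bound_of_continuousOn
    (hd.continuousOn.mono hsub1)
  have hB0 : 0 ≤ B := (norm_nonneg _).trans (hB 0 (mem_closedBall_self zero_le_one))
  have hexp : ∀ ω : ℂ, ω.re ≤ 0 → exp ω ∈ closedBall (0 : ℂ) 1 := by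
    intro ω h
    rw [mem_closedBall_zero_iff, Complex.norm_exp]
    exact Real.exp_le_one_iff.2 h
  have hder : ∀ ω : ℂ, ω.re ≤ 0 →
      HasDerivAt (fun x => φ (exp x)) (deriv φ (exp ω) * exp ω) ω := by
    intro ω h
    have h1 : DifferentiableAt ℂ φ (exp ω) :=
      hφ.differentiableAt (isOpen_ball.mem_nhds (hsub1 (hexp ω h)))
    exact h1.hasDerivAt.comp ω (Complex.hasDerivAt_exp ω)
  have hbd : ∀ ω : ℂ, ω.re ≤ 0 → ‖deriv φ (exp ω) * exp ω‖ ≤ B := by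
    intro ω h
    rw [norm_mul]
    have h1 := hB _ (hexp ω h)
    have h2 : ‖exp ω‖ ≤ 1 := mem_closedBall_zero_iff.1 (hexp ω h)
    calc _ ≤ B * 1 := mul_le_mul h1 h2 (norm_nonneg _) hB0
      _ = B := mul_one B
  have hconv : Convex ℝ {ω : ℂ | ω.re ≤ 0} := convex_halfSpace_re_le 0
  have hlip : ∀ x y : ℂ, x.re ≤ 0 → y.re ≤ 0 → ‖φ (exp y) - φ (exp x)‖ ≤ B * ‖y - x‖ := by
    intro x y hx hy
    exact hconv.norm_image_sub_le_of_norm_hasDerivWithin_le (f := fun x => φ (exp x))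
      (fun z hz => (hder z hz).hasDerivWithinAt) (fun z hz => hbd z hz) hx hy
  obtain ⟨W, hW⟩ : ∃ W, W = ℓ + Real.pi := ⟨_, rfl⟩
  obtain ⟨X, hX⟩ : ∃ X, X = C * B * W / ℓ * ℓ ^ (1 - α) := ⟨_, rfl⟩
  obtain ⟨K₂, hK₂⟩ : ∃ K₂, K₂ = C ^ 2 * (a * Real.exp (a * X)) * B * W := ⟨_, rfl⟩
  have hpi := Real.pi_pos
  have hW0 : 0 < W := by rw [hW]; positivity
  have hK20 : 0 ≤ K₂ := by rw [hK₂]; positivity
  refine ⟨|K₁|, K₂, abs_nonneg _, hK20, fun ω0 h1 h2 h3 => ?_⟩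
  have h2' : ω0.re < 0 := by linarith
  rw [hV ω0 h1 h2']
  have e1 : ‖G (exp ω0)‖ ≤ |K₁| := by
    refine (hK₁ _ ?_).trans (le_abs_self _)
    rw [mem_closedBall_zero_iff, Complex.norm_exp]
    exact Real.exp_le_exp.2 h2
  have hn : ‖ω0‖ ≤ W := by
    refine (Complex.norm_le_abs_re_add_abs_im ω0).trans ?_
    rw [hW, abs_of_neg h2']
    linarith
  have e2 : ‖seg (fun ω => ker a φ ω ω0 (Fc φ ω)) 0 ω0‖ ≤
      K₂ * ∫ t in (0 : ℝ)..1, (ℓ + t * ω0.re) ^ (-(2 * α)) := by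
    rw [← intervalIntegral.integral_const_mul, seg]
    refine intervalIntegral.norm_integral_le_of_norm_le zero_le_one
      (Eventually.of_forall fun t ht => ?_)
      ((cont_of (2 * α) h1 h2').const_smul K₂).intervalIntegrable
    obtain ⟨ω, hω⟩ : ∃ ω : ℂ, ω = (t : ℂ) * ω0 := ⟨_, rfl⟩
    have hre : ω.re = t * ω0.re := by rw [hω]; simp
    obtain ⟨s, hs⟩ : ∃ s, s = ℓ + t * ω0.re := ⟨_, rfl⟩
    have hs0 : 0 < s := by rw [hs]; exact pos_of h1 h2' ⟨ht.1.le, ht.2⟩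
    have hsl : s ≤ ℓ := by rw [hs]; nlinarith [ht.1]
    have hst : 1 - t ≤ s / ℓ := by
      rw [le_div_iff₀ hℓ, hs]
      nlinarith [ht.1]
    have hre0 : ω.re < 0 := by rw [hre]; nlinarith [ht.1]
    have hre1 : -ℓ < ω.re := by rw [hre]; linarith
    have hξ := hg ω hre1 hre0
    rw [hre, ← hs] at hξ
    rw [← hs]
    have hr0 : 0 ≤ s ^ (-α) := Real.rpow_nonneg hs0.le _
    have hdl : ‖φ (exp ω) - φ (exp ω0)‖ ≤ B * (s / ℓ * W) := by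
      refine (hlip ω0 ω h2'.le hre0.le).trans (mul_le_mul_of_nonneg_left ?_ hB0)
      have e3 : ω - ω0 = -(((1 - t : ℝ) : ℂ) * ω0) := by
        rw [hω]; push_cast; ring
      rw [e3, norm_neg, norm_mul, Complex.norm_real, Real.norm_of_nonneg (by linarith [ht.2])]
      exact mul_le_mul hst hn (norm_nonneg _) (by positivity)
    have hx : ‖Fc φ ω * (φ (exp ω) - φ (exp ω0))‖ ≤ X := by
      rw [norm_mul]
      calc _ ≤ (C * s ^ (-α)) * (B * (s / ℓ * W)) :=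
            mul_le_mul hξ hdl (norm_nonneg _) (by positivity)
        _ = C * B * W / ℓ * (s ^ (-α) * s) := by ring
        _ = C * B * W / ℓ * s ^ (1 - α) := by
            have e4 : s ^ (-α) * s = s ^ (1 - α) := by
              conv_lhs => rw [show s ^ (-α) * s = s ^ (-α) * s ^ (1 : ℝ) by rw [Real.rpow_one]]
              rw [← Real.rpow_add hs0]
              congr 1
              ring
            rw [e4]
        _ ≤ X := by
            rw [hX]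
            exact mul_le_mul_of_nonneg_left (Real.rpow_le_rpow hs0.le hsl (by linarith))
              (by positivity)
    have hk : ‖kap a (Fc φ ω * (φ (exp ω) - φ (exp ω0)))‖ ≤ a * Real.exp (a * X) := by
      refine ((hK a ha.le).2.1 _).trans (mul_le_mul_of_nonneg_left ?_ ha.le)
      exact Real.exp_le_exp.2 (mul_le_mul_of_nonneg_left hx ha.le)
    have e5 : (0 : ℂ) + (t : ℂ) * (ω0 - 0) = ω := by rw [hω, sub_zero, zero_add]
    rw [e5, sub_zero]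
    show ‖Fc φ ω ^ 2 * kap a (Fc φ ω * (φ (exp ω) - φ (exp ω0))) *
      (deriv φ (exp ω) * exp ω) * ω0‖ ≤ _
    rw [norm_mul, norm_mul, norm_mul, norm_pow]
    have e6 : (s ^ (-α)) ^ 2 = s ^ (-(2 * α)) := by
      rw [← Real.rpow_natCast, ← Real.rpow_mul hs0.le]
      congr 1
      push_cast
      ring
    have q1 : ‖Fc φ ω‖ ^ 2 ≤ (C * s ^ (-α)) ^ 2 := pow_le_pow_left₀ (norm_nonneg _) hξ 2
    have q2 := mul_le_mul q1 hk (norm_nonneg _) (by positivity)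
    have q3 := mul_le_mul q2 (hbd ω hre0.le) (norm_nonneg _) (by positivity)
    have q4 := mul_le_mul q3 hn (norm_nonneg _) (by positivity)
    refine q4.trans (le_of_eq ?_)
    rw [mul_pow, e6, hK₂]
    ring
  exact (norm_add_le _ _).trans (add_le_add e1 e2)

theorem per_ext {φ : ℂ → ℂ} {ℓ : ℝ} {b : ℝ → ℝ} (h : ∀ ω : ℂ, -ℓ < ω.re → ω.re ≤ -(ℓ / 4) →
    |ω.im| ≤ Real.pi → ‖Fc φ ω‖ ≤ b ω.re) :
    ∀ ω : ℂ, -ℓ < ω.re → ω.re ≤ -(ℓ / 4) → ‖Fc φ ω‖ ≤ b ω.re := by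
  intro ω h1 h2
  have hpi := Real.pi_pos
  obtain ⟨n, hn⟩ : ∃ n : ℤ, |ω.im + n * (2 * Real.pi)| ≤ Real.pi := by
    refine ⟨-round (ω.im / (2 * Real.pi)), ?_⟩
    have h3 := abs_sub_round (ω.im / (2 * Real.pi))
    have e : ω.im + ((-round (ω.im / (2 * Real.pi)) : ℤ) : ℝ) * (2 * Real.pi) =
        (ω.im / (2 * Real.pi) - round (ω.im / (2 * Real.pi))) * (2 * Real.pi) := by
      push_cast
      field_simp
      ring
    rw [e, abs_mul, abs_of_pos (by positivity : (0 : ℝ) < 2 * Real.pi)]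
    nlinarith
  have hre : (ω + n * (2 * Real.pi * I)).re = ω.re := by simp
  have him : (ω + n * (2 * Real.pi * I)).im = ω.im + n * (2 * Real.pi) := by simp
  have h4 := h (ω + n * (2 * Real.pi * I)) (by rwa [hre]) (by rwa [hre]) (by rwa [him])
  rwa [Fc_per, hre] at h4

theorem step_lt {φ G : ℂ → ℂ} {a ℓ α C : ℝ} (D : Da φ G a ℓ) (hα : α < 1 / 2) (hC : 0 ≤ C)
    (hg : Gr φ ℓ α C) : ∃ M : ℝ, ∀ ω : ℂ, -ℓ < ω.re → ω.re ≤ 0 → ‖Fc φ ω‖ ≤ M := by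
  obtain ⟨B, hB0, hB⟩ := near D.l0 D.hφ
  obtain ⟨K₁, K₂, k1, k2, hk⟩ := core D (by linarith) hC hg
  have h3 := per_ext (b := fun _ => K₁ + K₂ * (ℓ ^ (1 - 2 * α) / ((1 - 2 * α) * (ℓ / 4))))
    (fun ω h1 h2 h3 => (hk ω h1 h2 h3).trans (add_le_add_right (mul_le_mul_of_nonneg_left
      (int_lt D.l0 h1 h2 (by linarith)) k2) _))
  refine ⟨max B (K₁ + K₂ * (ℓ ^ (1 - 2 * α) / ((1 - 2 * α) * (ℓ / 4)))), fun ω h1 h2 => ?_⟩
  rcases le_total (-(ℓ / 4)) ω.re with h | h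
  · exact (hB ω h h2).trans (le_max_left _ _)
  · exact (h3 ω h1 h).trans (le_max_right _ _)

theorem raise {φ : ℂ → ℂ} {ℓ α α' C : ℝ} (hC : 0 ≤ C) (h : α ≤ α') (hℓ : 0 < ℓ)
    (hg : Gr φ ℓ α C) : ∃ C', 0 ≤ C' ∧ Gr φ ℓ α' C' := by
  refine ⟨C * ℓ ^ (α' - α), mul_nonneg hC (Real.rpow_nonneg hℓ.le _), fun ω h1 h2 => ?_⟩
  refine (hg ω h1 h2).trans ?_
  have h0 : 0 < ℓ + ω.re := by linarith
  rw [mul_assoc]
  refine mul_le_mul_of_nonneg_left ?_ hC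
  have e : (ℓ + ω.re) ^ (-α) = (ℓ + ω.re) ^ (α' - α) * (ℓ + ω.re) ^ (-α') := by
    rw [← Real.rpow_add h0]
    congr 1
    ring
  rw [e]
  exact mul_le_mul_of_nonneg_right (Real.rpow_le_rpow h0.le (by linarith) (by linarith))
    (Real.rpow_nonneg h0.le _)

theorem step_gt {φ G : ℂ → ℂ} {a ℓ α C : ℝ} (D : Da φ G a ℓ) (hα0 : 1 / 2 < α) (hα : α < 1)
    (hC : 0 ≤ C) (hg : Gr φ ℓ α C) : ∃ C', 0 ≤ C' ∧ Gr φ ℓ (2 * α - 1) C' := by
  obtain ⟨B, hB0, hB⟩ := near D.l0 D.hφ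
  obtain ⟨K₁, K₂, k1, k2, hk⟩ := core D hα hC hg
  have hℓ := D.l0
  have h3 := per_ext (b := fun x => K₁ + K₂ * (((2 * α - 1) * (ℓ / 4))⁻¹ * (ℓ + x) ^ (1 - 2 * α)))
    (fun ω h1 h2 h3 => (hk ω h1 h2 h3).trans (add_le_add_right (mul_le_mul_of_nonneg_left
      (int_gt D.l0 h1 h2 (by linarith)) k2) _))
  have hc : ∀ x : ℝ, -ℓ < x → x < 0 → 1 ≤ ℓ ^ (2 * α - 1) * (ℓ + x) ^ (1 - 2 * α) := by
    intro x h1 h2
    have h0 : 0 < ℓ + x := by linarith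
    have e1 : (ℓ + x) ^ (2 * α - 1) * (ℓ + x) ^ (1 - 2 * α) = 1 := by
      rw [← Real.rpow_add h0, show 2 * α - 1 + (1 - 2 * α) = 0 by ring, Real.rpow_zero]
    refine e1.symm.le.trans ?_
    exact mul_le_mul_of_nonneg_right (Real.rpow_le_rpow h0.le (by linarith) (by linarith))
      (Real.rpow_nonneg h0.le _)
  have hb : 0 ≤ ((2 * α - 1) * (ℓ / 4))⁻¹ := by
    have : 0 < 2 * α - 1 := by linarith
    positivity
  have hl : 0 ≤ ℓ ^ (2 * α - 1) := Real.rpow_nonneg hℓ.le _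
  refine ⟨(B + K₁) * ℓ ^ (2 * α - 1) + K₂ * ((2 * α - 1) * (ℓ / 4))⁻¹, by positivity,
    fun ω h1 h2 => ?_⟩
  have hr : 0 ≤ (ℓ + ω.re) ^ (1 - 2 * α) := Real.rpow_nonneg (by linarith) _
  have hcc := hc ω.re h1 h2
  rw [show -(2 * α - 1) = 1 - 2 * α by ring]
  have q1 : 0 ≤ K₂ * ((2 * α - 1) * (ℓ / 4))⁻¹ * (ℓ + ω.re) ^ (1 - 2 * α) := by positivity
  have q2 := mul_le_mul_of_nonneg_left hcc hB0
  have q3 := mul_le_mul_of_nonneg_left hcc k1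
  rcases le_total (-(ℓ / 4)) ω.re with h | h
  · have q4 := hB ω h h2.le
    nlinarith
  · have q4 := h3 ω h1 h
    nlinarith

theorem all {φ G : ℂ → ℂ} {a ℓ : ℝ} (D : Da φ G a ℓ) : ∀ (k : ℕ) (α C : ℝ), 0 ≤ C →
    3 / 10 * (1 / 2 : ℝ) ^ k ≤ 1 - α → Gr φ ℓ α C →
      ∃ M : ℝ, ∀ ω : ℂ, -ℓ < ω.re → ω.re ≤ 0 → ‖Fc φ ω‖ ≤ M := by
  have base : ∀ α C : ℝ, 0 ≤ C → α ≤ 7 / 10 → Gr φ ℓ α C →
      ∃ M : ℝ, ∀ ω : ℂ, -ℓ < ω.re → ω.re ≤ 0 → ‖Fc φ ω‖ ≤ M := by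
    intro α C hC h hg
    obtain ⟨C1, hC1, g1⟩ := raise hC h D.l0 hg
    obtain ⟨C2, hC2, g2⟩ := step_gt D (by norm_num) (by norm_num) hC1 g1
    exact step_lt D (by norm_num) hC2 g2
  intro k
  induction k with
  | zero =>
    intro α C hC h hg
    rw [pow_zero] at h
    exact base α C hC (by linarith) hg
  | succ k ih =>
    intro α C hC h hg
    rcases le_or_gt α (7 / 10) with h1 | h1
    · exact base α C hC h1 hg
    · have h2 : 0 < (1 / 2 : ℝ) ^ (k + 1) := by positivity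
      obtain ⟨C2, hC2, g2⟩ := step_gt D (by linarith) (by linarith) hC hg
      refine ih (2 * α - 1) C2 hC2 ?_ g2
      rw [pow_succ] at h
      linarith

theorem boot : S_BOOT := by
  intro hK _ φ G a ℓ α C ha hℓ hα hφ hG hV hg
  have D : Da φ G a ℓ := ⟨hK, ha, hℓ, hφ, hG, hV⟩
  have hg' : Gr φ ℓ α |C| := fun ω h1 h2 => (hg ω h1 h2).trans
    (mul_le_mul_of_nonneg_right (le_abs_self C) (Real.rpow_nonneg (by linarith) _))
  have h0 : 0 < (1 - α) / (3 / 10) := by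
    apply div_pos <;> linarith
  obtain ⟨k, hk⟩ := exists_pow_lt_of_lt_one h0 (by norm_num : (1 / 2 : ℝ) < 1)
  refine all D k α |C| (abs_nonneg C) ?_ hg'
  rw [lt_div_iff₀ (by norm_num)] at hk
  linarith

end Pool.Agent.Y154.SC
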